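import Pool.Agent.Helper15_SIU.Lib3

/-! SIU, module NIN (helper59): the integral over the chart is bounded by the integral over the
shell. -/

set_option autoImplicit false

open MeasureTheory Filter Topology
open scoped ENNReal

namespace Pool.Agent.SIU.H59

open Pool.Agent.SIU

/-! ### products -/

theorem lintegral_fin_prod (n : ℕ) (f : Fin n → ℂ → ℝ≥0∞) (hf : ∀ i, Measurable (f i)) :
    ∫⁻ x : Fin n → ℂ, ∏ i, f i (x i) = ∏ i, ∫⁻ x, f i x := by
  induction n with
  | zero =>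
    simp [volume_pi]
  | succ n ih =>
    calc ∫⁻ x : Fin (n + 1) → ℂ, ∏ i, f i (x i)
        = ∫⁻ x : ℂ × (Fin n → ℂ), f 0 x.1 * ∏ i : Fin n, f (Fin.succ i) (x.2 i)
            ∂((volume : Measure ℂ).prod (volume : Measure (Fin n → ℂ))) := by
          have h := (volume_preserving_piFinSuccAbove (fun _ : Fin (n + 1) => ℂ) 0).symm
          rw [← h.lintegral_comp_emb (MeasurableEquiv.measurableEmbedding _)]
          refine lintegral_congr fun x => ?_
          rw [Fin.prod_univ_succ]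
          congr 1
      _ = (∫⁻ x, f 0 x) * ∫⁻ x : Fin n → ℂ, ∏ i, f (Fin.succ i) (x i) := by
          have hm : Measurable (fun x : Fin n → ℂ => ∏ i : Fin n, f (Fin.succ i) (x i)) :=
            Finset.measurable_prod _ fun i _ => (hf i.succ).comp (measurable_pi_apply i)
          exact lintegral_prod_mul (μ := (volume : Measure ℂ))
            (ν := (volume : Measure (Fin n → ℂ))) (hf 0).aemeasurable hm.aemeasurable
      _ = ∏ i, ∫⁻ x, f i x := by
          rw [ih (fun i => f i.succ) (fun i => hf i.succ), Fin.prod_univ_succ]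

/-! ### scaling pairs of arguments -/

theorem step (η : Alt 7 8) (m : Fin 8 → E7) (i j : Fin 8) (hij : i ≠ j)
    (h : m j = Complex.I • m i) (w : ℂ) :
    η (Function.update (Function.update m i (w • m i)) j (w • m j)) = ‖w‖ ^ 2 * η m := by
  have e1 : w • m i = w.re • m i + w.im • m j := by
    rw [h]
    funext k
    simp only [Pi.smul_apply, Pi.add_apply, smul_eq_mul, Complex.real_smul]
    conv_lhs => rw [← Complex.re_add_im w]
    ring
  have e2 : w • m j = w.re • m j + (-w.im) • m i := by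
    rw [h]
    funext k
    simp only [Pi.smul_apply, Pi.add_apply, smul_eq_mul, Complex.real_smul]
    conv_lhs => rw [← Complex.re_add_im w]
    push_cast
    linear_combination (w.im : ℂ) * m i k * Complex.I_mul_I
  have a1 : η (Function.update (Function.update m i (w • m i)) j (m j)) = w.re * η m := by
    have hu : Function.update (Function.update m i (w • m i)) j (m j) =
        Function.update m i (w • m i) := by
      rw [Function.update_eq_self_iff, Function.update_of_ne hij.symm]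
    rw [hu, e1, η.map_update_add, η.map_update_smul, η.map_update_smul, Function.update_eq_self]
    have h0 : η (Function.update m i (m j)) = 0 := by
      refine η.map_eq_zero_of_eq _ (i := i) (j := j) ?_ hij
      rw [Function.update_self, Function.update_of_ne hij.symm]
    rw [h0]
    simp
  have a2 : η (Function.update (Function.update m i (w • m i)) j (m i)) = -(w.im * η m) := by
    rw [Function.update_comm hij, e1, η.map_update_add, η.map_update_smul, η.map_update_smul]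
    have h0 : η (Function.update (Function.update m j (m i)) i (m i)) = 0 := by
      refine η.map_eq_zero_of_eq _ (i := i) (j := j) ?_ hij
      rw [Function.update_self, Function.update_of_ne hij.symm, Function.update_self]
    have h1 : η (Function.update (Function.update m j (m i)) i (m j)) = - η m := by
      have hs : Function.update (Function.update m j (m i)) i (m j) =
          m ∘ Equiv.swap i j := by
        funext k
        by_cases hk : k = i
        · subst hk; simp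
        · by_cases hk' : k = j
          · subst hk'; simp [hij.symm]
          · simp [Function.update_of_ne hk, Function.update_of_ne hk',
              Equiv.swap_apply_of_ne_of_ne hk hk']
      rw [hs]
      exact η.toAlternatingMap.map_swap m hij
    rw [h0, h1]
    simp
  rw [e2, η.map_update_add, η.map_update_smul, η.map_update_smul, a1, a2]
  rw [← Complex.normSq_eq_norm_sq, Complex.normSq_apply]
  simp only [smul_eq_mul]
  ring

/-- the standard vectors -/
noncomputable def EE : Fin 8 → E7 := fun i => inc (stdb 4 8 i)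

theorem EE_eq : EE =
    ![![1, 0, 0, 0, 0, 0, 0], ![Complex.I, 0, 0, 0, 0, 0, 0],
      ![0, 0, 1, 0, 0, 0, 0], ![0, 0, Complex.I, 0, 0, 0, 0],
      ![0, 0, 0, 1, 0, 0, 0], ![0, 0, 0, Complex.I, 0, 0, 0],
      ![0, 0, 0, 0, 0, 1, 0], ![0, 0, 0, 0, 0, Complex.I, 0]] := inc_stdb

/-- the vectors with the pair number `a` multiplied by `w a` -/
noncomputable def EW (w : Fin 4 → ℂ) : Fin 8 → E7 :=
    ![![w 0, 0, 0, 0, 0, 0, 0], ![w 0 * Complex.I, 0, 0, 0, 0, 0, 0],
      ![0, 0, w 1, 0, 0, 0, 0], ![0, 0, w 1 * Complex.I, 0, 0, 0, 0],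
      ![0, 0, 0, w 2, 0, 0, 0], ![0, 0, 0, w 2 * Complex.I, 0, 0, 0],
      ![0, 0, 0, 0, 0, w 3, 0], ![0, 0, 0, 0, 0, w 3 * Complex.I, 0]]

theorem EW_scale (η : Alt 7 8) (w : Fin 4 → ℂ) :
    η (EW w) = (‖w 0‖ ^ 2 * ‖w 1‖ ^ 2 * ‖w 2‖ ^ 2 * ‖w 3‖ ^ 2) * η EE := by
  have h1 : η (EW ![w 0, 1, 1, 1]) = ‖w 0‖ ^ 2 * η EE := by
    rw [← step η EE 0 1 (by decide) (by rw [EE_eq]; funext k; fin_cases k <;> simp) (w 0)]
    congr 1
    rw [EE_eq]
    funext i k
    fin_cases i <;> fin_cases k <;> simp [EW, Function.update]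
  have h2 : η (EW ![w 0, w 1, 1, 1]) = ‖w 1‖ ^ 2 * η (EW ![w 0, 1, 1, 1]) := by
    rw [← step η (EW ![w 0, 1, 1, 1]) 2 3 (by decide)
      (by funext k; fin_cases k <;> simp [EW]) (w 1)]
    congr 1
    funext i k
    fin_cases i <;> fin_cases k <;> simp [EW, Function.update]
  have h3 : η (EW ![w 0, w 1, w 2, 1]) = ‖w 2‖ ^ 2 * η (EW ![w 0, w 1, 1, 1]) := by
    rw [← step η (EW ![w 0, w 1, 1, 1]) 4 5 (by decide)
      (by funext k; fin_cases k <;> simp [EW]) (w 2)]
    congr 1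
    funext i k
    fin_cases i <;> fin_cases k <;> simp [EW, Function.update]
  have h4 : η (EW ![w 0, w 1, w 2, w 3]) = ‖w 3‖ ^ 2 * η (EW ![w 0, w 1, w 2, 1]) := by
    rw [← step η (EW ![w 0, w 1, w 2, 1]) 6 7 (by decide)
      (by funext k; fin_cases k <;> simp [EW]) (w 3)]
    congr 1
    funext i k
    fin_cases i <;> fin_cases k <;> simp [EW, Function.update]
  have h5 : EW w = EW ![w 0, w 1, w 2, w 3] := by
    congr 1
    funext k
    fin_cases k <;> rfl
  rw [h5, h4, h3, h2, h1]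
  ring

theorem act_EE (c : Fin 3 → ℂ) : (fun i => X2.act c (EE i)) =
    EW ![c 0, (c 0)⁻¹ * c 1, (c 0)⁻¹ * c 1, c 2] := by
  funext i
  rw [act_eq, EE_eq]
  funext k
  fin_cases i <;> fin_cases k <;> simp [EW]

/-- the Jacobian -/
noncomputable def JJ (c : Fin 3 → ℂ) : ℝ := ‖c 0‖ ^ 2 * (‖c 0‖⁻¹ * ‖c 1‖) ^ 4 * ‖c 2‖ ^ 2

theorem JJ_nonneg (c : Fin 3 → ℂ) : 0 ≤ JJ c := by unfold JJ; positivity

theorem act_scale (η : Alt 7 8) (c : Fin 3 → ℂ) :
    η (fun i => X2.act c (EE i)) = JJ c * η EE := by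
  rw [act_EE, EW_scale]
  unfold JJ
  congr 1
  show ‖c 0‖ ^ 2 * ‖(c 0)⁻¹ * c 1‖ ^ 2 * ‖(c 0)⁻¹ * c 1‖ ^ 2 * ‖c 2‖ ^ 2 = _
  rw [norm_mul, norm_inv]
  ring

theorem chi_eq (η : E7 → Alt 7 8) (x : Fin 4 → ℂ) : chi η x = η (sig x) EE := rfl

theorem chi_act {η : E7 → Alt 7 8} (hη : X2.BasicOn U2' η) {x : Fin 4 → ℂ} (hx : sig x ∈ U2')
    {c : Fin 3 → ℂ} (hc : ∀ j, c j ≠ 0) :
    JJ c * η (X2.act c (sig x)) EE = chi η x := by
  rw [chi_eq, ← act_scale]
  exact hη.1 (sig x) hx c hc EE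

/-! ### the function on `E7` -/

/-- the domain -/
def SS : Set E7 := {z | z ∈ Shell ∧ z ∈ U2' ∧ z 1 ≠ 0 ∧ z 4 ≠ 0 ∧ z 6 ≠ 0}

theorem measurableSet_SS : MeasurableSet SS := by
  have ho : ∀ j : Fin 7, MeasurableSet {z : E7 | z j ≠ 0} := fun j =>
    (isOpen_ne_fun (continuous_apply j) continuous_const).measurableSet
  exact isCompact_Shell.isClosed.measurableSet.inter (isOpen_U2'.measurableSet.inter
    ((ho 1).inter ((ho 4).inter (ho 6))))

open Classical in
/-- the function -/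
noncomputable def gg (η : E7 → Alt 7 8) : E7 → ℝ≥0∞ :=
  SS.piecewise (fun z => ENNReal.ofReal (|η z EE| / (‖z 1‖ * ‖z 4‖ * ‖z 6‖) ^ 2)) (fun _ => 0)

theorem continuous_eval_EE : Continuous (fun a : Alt 7 8 => a EE) := by
  have h : Continuous (ContinuousAlternatingMap.apply ℝ E7 ℝ EE : Alt 7 8 → ℝ) :=
    (ContinuousAlternatingMap.apply ℝ E7 ℝ EE).continuous
  exact h

theorem measurable_gg {η : E7 → Alt 7 8} (hη : ContinuousOn η U2') : Measurable (gg η) := by
  classical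
  refine ContinuousOn.measurable_piecewise ?_ continuousOn_const measurableSet_SS
  refine ENNReal.continuous_ofReal.comp_continuousOn ?_
  refine ContinuousOn.div ?_ ?_ ?_
  · exact (continuous_eval_EE.comp_continuousOn (hη.mono fun z hz => hz.2.1)).abs
  · fun_prop
  · rintro z ⟨-, -, h1, h4, h6⟩
    have := norm_pos_iff.mpr h1
    have := norm_pos_iff.mpr h4
    have := norm_pos_iff.mpr h6
    positivity

/-- the cut-off -/
noncomputable def FF (a : ℝ) (c : ℂ) : ℝ≥0∞ :=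
  if 1 / 2 ≤ ‖c‖ ^ 2 * a ∧ ‖c‖ ^ 2 * a ≤ 2 then ENNReal.ofReal (‖c‖ ^ 2)⁻¹ else 0

theorem measurable_FF (a : ℝ) : Measurable (FF a) := by
  unfold FF
  refine Measurable.ite ?_ ?_ measurable_const
  · have h : Continuous (fun c : ℂ => ‖c‖ ^ 2 * a) := by fun_prop
    exact (isClosed_le continuous_const h).measurableSet.inter
      (isClosed_le h continuous_const).measurableSet
  · fun_prop

theorem gg_act {η : E7 → Alt 7 8} (hη : X2.BasicOn U2' η) {x : Fin 4 → ℂ} (hx : sig x ∈ U2')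
    {c : Fin 3 → ℂ} (hc : ∀ j, c j ≠ 0) :
    gg η (X2.act c (sig x)) * ENNReal.ofReal (JJ c) =
      (∏ j, FF (![AA (sig x), DD (sig x), YY (sig x)] j) (c j)) * ENNReal.ofReal |chi η x| := by
  classical
  have n0 := norm_pos_iff.mpr (hc 0)
  have n1 := norm_pos_iff.mpr (hc 1)
  have n2 := norm_pos_iff.mpr (hc 2)
  have z1 : X2.act c (sig x) 1 = c 0 := by rw [act_eq]; simp [sig]
  have z4 : X2.act c (sig x) 4 = c 1 := by rw [act_eq]; simp [sig]
  have z6 : X2.act c (sig x) 6 = c 2 := by rw [act_eq]; simp [sig]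
  have hS : X2.act c (sig x) ∈ SS ↔
      ((1 / 2 ≤ ‖c 0‖ ^ 2 * AA (sig x) ∧ ‖c 0‖ ^ 2 * AA (sig x) ≤ 2) ∧
      (1 / 2 ≤ ‖c 1‖ ^ 2 * DD (sig x) ∧ ‖c 1‖ ^ 2 * DD (sig x) ≤ 2)) ∧
      (1 / 2 ≤ ‖c 2‖ ^ 2 * YY (sig x) ∧ ‖c 2‖ ^ 2 * YY (sig x) ≤ 2) := by
    unfold SS Shell
    simp only [Set.mem_ofPred_eq]
    rw [AA_act, DD_act hc, YY_act, z1, z4, z6]
    constructor
    · rintro ⟨⟨h1, h2, h3, h4, h5, h6⟩, -⟩
      exact ⟨⟨⟨h1, h2⟩, ⟨h3, h4⟩⟩, ⟨h5, h6⟩⟩
    · rintro ⟨⟨⟨h1, h2⟩, ⟨h3, h4⟩⟩, ⟨h5, h6⟩⟩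
      exact ⟨⟨h1, h2, h3, h4, h5, h6⟩, act_mem_U2' hc hx, hc 0, hc 1, hc 2⟩
  rw [Fin.prod_univ_three]
  show gg η (X2.act c (sig x)) * ENNReal.ofReal (JJ c) =
    (FF (AA (sig x)) (c 0) * FF (DD (sig x)) (c 1) * FF (YY (sig x)) (c 2)) *
      ENNReal.ofReal |chi η x|
  unfold gg
  by_cases h : X2.act c (sig x) ∈ SS
  · rw [Set.piecewise_eq_of_mem _ _ _ h]
    obtain ⟨⟨h1, h2⟩, h3⟩ := hS.mp h
    unfold FF
    rw [if_pos h1, if_pos h2, if_pos h3, z1, z4, z6]
    rw [← ENNReal.ofReal_mul (by positivity), ← ENNReal.ofReal_mul (by positivity),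
      ← ENNReal.ofReal_mul (by positivity), ← ENNReal.ofReal_mul (by positivity)]
    congr 1
    rw [← chi_act hη hx hc, abs_mul, abs_of_nonneg (JJ_nonneg c)]
    field_simp
  · rw [Set.piecewise_eq_of_notMem _ _ _ h, zero_mul]
    have h' := mt hS.mpr h
    rw [not_and_or, not_and_or] at h'
    unfold FF
    rcases h' with (h' | h') | h'
    · rw [if_neg h']; simp
    · rw [if_neg h']; simp
    · rw [if_neg h']; simp

theorem measurable_act_sig : Measurable (fun p : (Fin 3 → ℂ) × (Fin 4 → ℂ) =>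
    X2.act p.1 (sig p.2)) := by
  have h : (fun p : (Fin 3 → ℂ) × (Fin 4 → ℂ) => X2.act p.1 (sig p.2)) = fun p =>
      ![p.1 0 * p.2 0, p.1 0, (p.1 0)⁻¹ * p.1 1 * p.2 1, (p.1 0)⁻¹ * p.1 1 * p.2 2, p.1 1,
        p.1 2 * p.2 3, p.1 2] := by
    funext p
    rw [act_eq]
    simp [sig]
  rw [h]
  refine measurable_pi_iff.mpr fun i => ?_
  have m1 : ∀ j, Measurable (fun p : (Fin 3 → ℂ) × (Fin 4 → ℂ) => p.1 j) := fun j =>
    (measurable_pi_apply j).comp measurable_fst
  have m2 : ∀ j, Measurable (fun p : (Fin 3 → ℂ) × (Fin 4 → ℂ) => p.2 j) := fun j =>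
    (measurable_pi_apply j).comp measurable_snd
  fin_cases i
  · exact (m1 0).mul (m2 0)
  · exact m1 0
  · exact ((m1 0).inv.mul (m1 1)).mul (m2 1)
  · exact ((m1 0).inv.mul (m1 1)).mul (m2 2)
  · exact m1 1
  · exact (m1 2).mul (m2 3)
  · exact m1 2

theorem measurable_JJ : Measurable JJ := by
  unfold JJ
  fun_prop

theorem ae_ne : ∀ᵐ c : Fin 3 → ℂ, ∀ j, c j ≠ 0 := by
  rw [ae_all_iff]
  intro j
  have h := Measure.pi_hyperplane (fun _ : Fin 3 => (volume : Measure ℂ)) j 0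
  rw [← volume_pi] at h
  exact compl_mem_ae_iff.mpr h

theorem nin (hfib : FibStmt) (hshc : ShcStmt) (hden : DenStmt) : NinStmt := by
  obtain ⟨κ, hκ0, hκt, hκ⟩ := hshc
  obtain ⟨C, hC0, hC⟩ := hden
  have hk3 : κ ^ 3 ≠ 0 := pow_ne_zero _ hκ0
  have hk3t : κ ^ 3 ≠ ⊤ := ENNReal.pow_ne_top hκt
  refine ⟨(κ ^ 3)⁻¹ * ENNReal.ofReal C, ENNReal.mul_ne_top (ENNReal.inv_ne_top.mpr hk3)
    ENNReal.ofReal_ne_top, ?_⟩
  intro η hcont hη
  -- the integral of `gg`
  have h1 : ∫⁻ z, gg η z = κ ^ 3 * ∫⁻ x, ENNReal.ofReal |chi η x| := by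
    rw [hfib (gg η) (measurable_gg hcont)]
    have hm : Measurable (fun p : (Fin 3 → ℂ) × (Fin 4 → ℂ) =>
        gg η (X2.act p.1 (sig p.2)) * ENNReal.ofReal (JJ p.1)) :=
      ((measurable_gg hcont).comp measurable_act_sig).mul
        (ENNReal.measurable_ofReal.comp (measurable_JJ.comp measurable_fst))
    have hsw := lintegral_lintegral_swap (μ := (volume : Measure (Fin 3 → ℂ)))
      (ν := (volume : Measure (Fin 4 → ℂ)))
      (f := fun c x => gg η (X2.act c (sig x)) * ENNReal.ofReal (JJ c)) hm.aemeasurable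
    refine hsw.trans ?_
    rw [← lintegral_const_mul' _ _ hk3t]
    refine lintegral_congr_ae ?_
    filter_upwards [ae_sig] with x hx
    have h2 : ∫⁻ c : Fin 3 → ℂ, gg η (X2.act c (sig x)) * ENNReal.ofReal (JJ c) =
        ∫⁻ c : Fin 3 → ℂ, (∏ j, FF (![AA (sig x), DD (sig x), YY (sig x)] j) (c j)) *
          ENNReal.ofReal |chi η x| := by
      refine lintegral_congr_ae ?_
      filter_upwards [ae_ne] with c hc
      exact gg_act hη hx hc
    rw [h2, lintegral_mul_const' _ _ ENNReal.ofReal_ne_top,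
      lintegral_fin_prod 3 _ (fun i => measurable_FF _), Fin.prod_univ_three]
    congr 1
    have e0 : ∫⁻ c : ℂ, FF (![AA (sig x), DD (sig x), YY (sig x)] 0) c = κ :=
      hκ _ (AA_pos hx.1)
    have e1 : ∫⁻ c : ℂ, FF (![AA (sig x), DD (sig x), YY (sig x)] 1) c = κ :=
      hκ _ (DD_pos hx.1)
    have e2 : ∫⁻ c : ℂ, FF (![AA (sig x), DD (sig x), YY (sig x)] 2) c = κ :=
      hκ _ (YY_pos hx.1)
    rw [e0, e1, e2]
    ring
  -- the bound
  have h2 : ∫⁻ z, gg η z ≤ ENNReal.ofReal C * ∫⁻ z in Shell, ENNReal.ofReal ‖η z‖ := by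
    classical
    rw [← lintegral_const_mul' _ _ ENNReal.ofReal_ne_top,
      ← lintegral_indicator isCompact_Shell.isClosed.measurableSet]
    refine lintegral_mono fun z => ?_
    unfold gg
    by_cases hz : z ∈ SS
    · rw [Set.piecewise_eq_of_mem _ _ _ hz, Set.indicator_of_mem hz.1,
        ← ENNReal.ofReal_mul hC0]
      refine ENNReal.ofReal_le_ofReal ?_
      obtain ⟨hs, hu, g1, g4, g6⟩ := hz
      have p1 := norm_pos_iff.mpr g1
      have p4 := norm_pos_iff.mpr g4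
      have p6 := norm_pos_iff.mpr g6
      rw [div_le_iff₀ (by positivity)]
      have h3 := hC (η z) z hs (fun v i hv => hη.2 z hu v i hv)
      calc |η z EE| ≤ C * (‖z 1‖ * ‖z 4‖ * ‖z 6‖) ^ 2 * ‖η z‖ := h3
        _ = C * ‖η z‖ * (‖z 1‖ * ‖z 4‖ * ‖z 6‖) ^ 2 := by ring
    · rw [Set.piecewise_eq_of_notMem _ _ _ hz]
      simp
  rw [h1] at h2
  calc ∫⁻ x, ENNReal.ofReal |chi η x|
      = (κ ^ 3)⁻¹ * (κ ^ 3 * ∫⁻ x, ENNReal.ofReal |chi η x|) := by
        rw [← mul_assoc, ENNReal.inv_mul_cancel hk3 hk3t, one_mul]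
    _ ≤ (κ ^ 3)⁻¹ * (ENNReal.ofReal C * ∫⁻ z in Shell, ENNReal.ofReal ‖η z‖) := by gcongr
    _ = _ := by rw [mul_assoc]

end Pool.Agent.SIU.H59
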